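import Pool.Agent.TH90.Cub.Util

set_option autoImplicit false

open CategoryTheory AlgebraicGeometry Pool.Agent.TH90.Cub

namespace Pool.Agent.Results.MP_e17fa799_al.CubicHypersurfaces

/-- The part of the formalism of `K'`-theory that is used: groups `K'_n(X)`, `n ≥ 0`, for schemes,
which for schemes `X` of finite type over `ℤ` only depend on `X` up to isomorphism, vanish for the
empty scheme, satisfy the localisation sequences
`K'_{n+1}(X \ Z) → K'_n(Z) → K'_n(X) → K'_n(X \ Z)` for closed `Z ⊆ X`,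
and homotopy invariance `K'_n(A) ≅ K'_n(A[T])` for finitely generated rings `A`
(Quillen 1973 proves all this for his `K'`-theory). -/
structure KPrime where
  /-- `K'_n(X)` -/
  K : ℕ → Scheme.{0} → Type
  grp : ∀ n X, AddCommGroup (K n X)
  iso : ∀ (n : ℕ) {X Y : Scheme.{0}} (_ : X ≅ Y) (g : Y ⟶ Spec (CommRingCat.of ℤ)),
    FT False ℤ g → Nonempty (K n X ≃+ K n Y)
  empty : ∀ (n : ℕ) (X : Scheme.{0}), IsEmpty X → Subsingleton (K n X)
  localization : ∀ {Z X U : Scheme.{0}} (f : X ⟶ Spec (CommRingCat.of ℤ)) (i : Z ⟶ X)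
    (j : U ⟶ X), FT False ℤ f → IsClosedImmersion i → IsOpenImmersion j →
    Set.range i = (Set.range j)ᶜ → ∀ n : ℕ,
    ∃ (bd : K (n + 1) U →+ K n Z) (push : K n Z →+ K n X) (res : K n X →+ K n U),
      Function.Exact bd push ∧ Function.Exact push res
  homotopy : ∀ (n : ℕ) (A : Type) [CommRing A] [Algebra ℤ A], Algebra.FiniteType ℤ A →
    Nonempty (K n (Spec (CommRingCat.of A)) ≃+ K n (Spec (CommRingCat.of (Polynomial A))))

attribute [instance] KPrime.grp

/-- The ring `ℤ[x_1, …, x_n][t_0, …, t_r] / (g_0 t_0 + ⋯ + g_r t_r - 1)`. -/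
abbrev Cubic {n r : ℕ} (g : Fin (r + 1) → MvPolynomial (Fin n) ℤ) : Type :=
  Hyp (MvPolynomial (Fin n) ℤ) g

/-- For `K'`-theory and `N ≥ 0` the following are equivalent: all `K'_m(X)`, `m ≥ N`, `X` regular
of finite type over `ℤ`, are finitely generated (for `N = 0` this is Bass's conjecture); the same
for all `X` of finite type over `ℤ`; the same for the hypersurfaces
`g_0 t_0 + ⋯ + g_r t_r = 1` of degree at most three in affine spaces over `ℤ`, where each `g_i` is
of the form `x_a x_b - x_c`, `x_a + x_b - x_c` or `x_a - 1`. These hypersurfaces are regular and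
smooth over `ℤ`. -/
theorem result (T : KPrime) (N : ℕ) :
    ((∀ (X : Scheme.{0}) (f : X ⟶ Spec (CommRingCat.of ℤ)), LocallyOfFiniteType f →
        QuasiCompact f → RegularScheme X → ∀ m ≥ N, AddGroup.FG (T.K m X)) ↔
      (∀ (n r : ℕ) (g : Fin (r + 1) → MvPolynomial (Fin n) ℤ), (∀ i, IsGate {1} (g i)) →
        ∀ m ≥ N, AddGroup.FG (T.K m (Spec (CommRingCat.of (Cubic g)))))) ∧
    ((∀ (X : Scheme.{0}) (f : X ⟶ Spec (CommRingCat.of ℤ)), LocallyOfFiniteType f →
        QuasiCompact f → ∀ m ≥ N, AddGroup.FG (T.K m X)) ↔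
      (∀ (n r : ℕ) (g : Fin (r + 1) → MvPolynomial (Fin n) ℤ), (∀ i, IsGate {1} (g i)) →
        ∀ m ≥ N, AddGroup.FG (T.K m (Spec (CommRingCat.of (Cubic g)))))) ∧
    (∀ (n r : ℕ) (g : Fin (r + 1) → MvPolynomial (Fin n) ℤ),
      RegularScheme (Spec (CommRingCat.of (Cubic g))) ∧ Smooth (str ℤ (Cubic g))) := by
  have hreg : ∀ (n r : ℕ) (g : Fin (r + 1) → MvPolynomial (Fin n) ℤ),
      RegularScheme (Spec (CommRingCat.of (Cubic g))) ∧ Smooth (str ℤ (Cubic g)) := by
    intro n r g
    have h1 : IsRegularRing (Cubic g) := hyp_regular _ g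
    have h2 : Algebra.Smooth ℤ (MvPolynomial (Fin n) ℤ) := smooth_mv ℤ n
    exact ⟨spec_regular _, hyp_smooth_scheme ℤ _ g⟩
  have hfin : ∀ (n r : ℕ) (g : Fin (r + 1) → MvPolynomial (Fin n) ℤ),
      FT False ℤ (str ℤ (Cubic g)) := fun n r g => ft_hyp g
  have hall : (∀ (n r : ℕ) (g : Fin (r + 1) → MvPolynomial (Fin n) ℤ), (∀ i, IsGate {1} (g i)) →
        ∀ m ≥ N, AddGroup.FG (T.K m (Spec (CommRingCat.of (Cubic g))))) →
      (∀ (X : Scheme.{0}) (f : X ⟶ Spec (CommRingCat.of ℤ)), LocallyOfFiniteType f →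
        QuasiCompact f → ∀ m ≥ N, AddGroup.FG (T.K m X)) := by
    intro h X f hf1 hf2
    let P : ∀ X : Scheme.{0}, (X ⟶ Spec (CommRingCat.of ℤ)) → Prop :=
      fun X _ => ∀ m ≥ N, AddGroup.FG (T.K m X)
    have hP : IsDevissage False ℤ P :=
      { iso := by
          intro X Y e g hg hX m hm
          obtain ⟨E⟩ := T.iso m e g hg
          exact fg_iso E (hX m hm)
        empty := by
          intro X f hX m hm
          exact fg_subsingleton (T.empty m X hX)
        closed := by
          intro Z X U f i j hf hi hj hr hX hU m hm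
          obtain ⟨bd, push, res, h1, h2⟩ := T.localization f i j hf hi hj hr m
          exact fg_mid bd push h1 (hU (m + 1) (by omega)) (hX m hm)
        total := by
          intro Z X U f i j hf hi hj hr hZ hU m hm
          obtain ⟨bd, push, res, h1, h2⟩ := T.localization f i j hf hi hj hr m
          exact fg_mid push res h2 (hZ m hm) (hU m hm) }
    have hA1 : A1 P := by
      intro A _ _ hA
      constructor
      · intro h m hm
        obtain ⟨E⟩ := T.homotopy m A hA
        exact fg_iso E (h m hm)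
      · intro h m hm
        obtain ⟨E⟩ := T.homotopy m A hA
        exact fg_iso E.symm (h m hm)
    exact all_of_cubics closure_one_int (Set.mem_singleton 1) hP hA1
      (fun n r g hg => h n r g hg) f ⟨hf1, hf2, fun hs => hs.elim⟩
  refine ⟨⟨fun h n r g hg => ?_, fun h X f hf1 hf2 _ => hall h X f hf1 hf2⟩,
    ⟨fun h n r g hg => ?_, hall⟩, hreg⟩
  · exact h _ (str ℤ (Cubic g)) (hfin n r g).lft (hfin n r g).qc (hreg n r g).1
  · exact h _ (str ℤ (Cubic g)) (hfin n r g).lft (hfin n r g).qc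

end Pool.Agent.Results.MP_e17fa799_al.CubicHypersurfaces
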